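import Pool.Agent.H91.RD.Targets

/-!
# (CPT) compactness
-/

set_option autoImplicit false

open MeasureTheory Set Filter Topology Metric
open Pool.Agent.H29.TF (hk P)

namespace Pool.Agent.H66.RD

open Pool.Agent.H91.RD

/-- modulus of continuity -/
noncomputable def md {N : ℕ} (Λ : ℝ) (p q : ℝ × E N) : ℝ :=
  Λ * ‖p.2 - q.2‖ + Λ * √|p.1 - q.1|

theorem md_cont {N : ℕ} (Λ : ℝ) (q : ℝ × E N) : Continuous (fun p => md Λ p q) := by
  unfold md
  fun_prop

theorem md_self {N : ℕ} (Λ : ℝ) (q : ℝ × E N) : md Λ q q = 0 := by simp [md]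

theorem md_comm {N : ℕ} (Λ : ℝ) (p q : ℝ × E N) : md Λ p q = md Λ q p := by
  unfold md
  rw [norm_sub_rev, abs_sub_comm]

theorem md_nhds {N : ℕ} (Λ : ℝ) (q : ℝ × E N) {ε : ℝ} (h : 0 < ε) : {p | md Λ p q < ε} ∈ 𝓝 q := by
  refine (isOpen_lt (md_cont Λ q) continuous_const).mem_nhds ?_
  rw [mem_setOf_eq, md_self]
  exact h

theorem tendsto_P {N : ℕ} {t : ℝ} (ht : 0 < t) {g : ℕ → E N → ℝ} {h : E N → ℝ} {C : ℝ}
    (hg : ∀ᶠ n in atTop, AEStronglyMeasurable (g n) volume)
    (hC : ∀ᶠ n in atTop, ∀ x, |g n x| ≤ C)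
    (hl : ∀ x, Tendsto (fun n => g n x) atTop (𝓝 (h x))) (x : E N) :
    Tendsto (fun n => P t (g n) x) atTop (𝓝 (P t h x)) := by
  unfold P
  refine tendsto_integral_filter_of_dominated_convergence (fun y => hk t (x - y) * C) ?_ ?_ ?_ ?_
  · filter_upwards [hg] with n hn
    refine AEStronglyMeasurable.mul ?_ hn
    exact (Pool.Agent.H29.TF.integrable_hk_sub ht x).aestronglyMeasurable
  · filter_upwards [hC] with n hn
    refine Eventually.of_forall fun y => ?_
    rw [Real.norm_eq_abs, abs_mul, abs_of_nonneg (Pool.Agent.H29.TF.hk_nonneg ht.le _)]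
    exact mul_le_mul_of_nonneg_left (hn y) (Pool.Agent.H29.TF.hk_nonneg ht.le _)
  · exact (Pool.Agent.H29.TF.integrable_hk_sub ht x).mul_const C
  · exact Eventually.of_forall fun y => (hl y).const_mul _

theorem cpt (hREG : T_REG) : T_CPT := by
  intro N f K hL a w hA hM hR
  obtain ⟨Λ, hΛ1, hΛ⟩ := hREG N K hL.K0
  -- extension by zero
  let W : ℕ → ℝ × E N → ℝ := fun n p => if a n ≤ p.1 then w n p.1 p.2 else 0
  have hW01 : ∀ n p, W n p ∈ Icc (0 : ℝ) 1 := by
    intro n p
    by_cases h : a n ≤ p.1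
    · simp only [W, if_pos h]
      exact hR n p.1 h p.2
    · simp only [W, if_neg h]
      exact ⟨le_rfl, zero_le_one⟩
  have hWeq : ∀ n (p : ℝ × E N), a n ≤ p.1 → W n p = w n p.1 p.2 := by
    intro n p h
    simp only [W, if_pos h]
  -- modulus
  have hmod : ∀ n (p q : ℝ × E N), a n + 1 ≤ p.1 → a n + 1 ≤ q.1 →
      |W n p - W n q| ≤ md Λ p q := by
    intro n p q hp hq
    rw [hWeq n p (by linarith), hWeq n q (by linarith)]
    obtain ⟨h1, h2⟩ := hΛ f (a n) (w n) hL (hM n) (hR n)
    have h3 := h1 p.1 hp p.2 q.2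
    have h4 := h2 q.1 hq p.1 hp q.2
    calc |w n p.1 p.2 - w n q.1 q.2|
        ≤ |w n p.1 p.2 - w n p.1 q.2| + |w n p.1 q.2 - w n q.1 q.2| := abs_sub_le _ _ _
      _ ≤ md Λ p q := by unfold md; linarith
  -- dense sequence
  let Q : ℕ → ℝ × E N := TopologicalSpace.denseSeq (ℝ × E N)
  have hQ : DenseRange Q := TopologicalSpace.denseRange_denseSeq _
  let g : ℕ → ℕ → Icc (0 : ℝ) 1 := fun n i => ⟨W n (Q i), hW01 n (Q i)⟩
  obtain ⟨l, σ, hσ, hl⟩ := CompactSpace.tendsto_subseq g
  have hl' : ∀ i, Tendsto (fun n => W (σ n) (Q i)) atTop (𝓝 (l i : ℝ)) := by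
    intro i
    have h1 := (tendsto_pi_nhds.1 hl) i
    exact (continuous_subtype_val.tendsto _).comp h1
  have hAσ : Tendsto (fun n => a (σ n)) atTop atBot := hA.comp hσ.tendsto_atTop
  have hev : ∀ b : ℝ, ∀ᶠ n in atTop, a (σ n) + 1 ≤ b := by
    intro b
    filter_upwards [hAσ.eventually_le_atBot (b - 1)] with n hn
    linarith
  -- pointwise convergence
  have hpt : ∀ p, ∃ y, Tendsto (fun n => W (σ n) p) atTop (𝓝 y) := by
    intro p
    refine cauchySeq_tendsto_of_complete ?_
    rw [Metric.cauchySeq_iff']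
    intro ε hε
    obtain ⟨i, hi⟩ := hQ.exists_mem_open
      (isOpen_lt (md_cont Λ p) continuous_const : IsOpen {q | md Λ q p < ε / 4})
      ⟨p, by rw [mem_setOf_eq, md_self]; positivity⟩
    rw [mem_setOf_eq] at hi
    have h1 := (Metric.tendsto_atTop.1 (hl' i)) (ε / 4) (by positivity)
    obtain ⟨n1, hn1⟩ := h1
    obtain ⟨n2, hn2⟩ := eventually_atTop.1 ((hev p.1).and (hev (Q i).1))
    refine ⟨max n1 n2, fun n hn => ?_⟩
    have k1 := hn1 n (le_trans (le_max_left _ _) hn)
    have k2 := hn1 (max n1 n2) (le_max_left _ _)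
    have k3 := hn2 n (le_trans (le_max_right _ _) hn)
    have k4 := hn2 (max n1 n2) (le_max_right _ _)
    have k5 := hmod (σ n) p (Q i) k3.1 k3.2
    have k6 := hmod (σ (max n1 n2)) (Q i) p k4.2 k4.1
    rw [md_comm] at k5
    rw [Real.dist_eq] at *
    rw [abs_lt] at *
    rw [abs_le] at *
    constructor <;> linarith [k1.1, k1.2, k2.1, k2.2, k5.1, k5.2, k6.1, k6.2]
  choose V hV using hpt
  have hV01 : ∀ p, V p ∈ Icc (0 : ℝ) 1 := fun p =>
    isClosed_Icc.mem_of_tendsto (hV p) (Eventually.of_forall fun n => hW01 _ p)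
  have hVmod : ∀ p q, |V p - V q| ≤ md Λ p q := by
    intro p q
    refine le_of_tendsto ((hV p).sub (hV q)).abs ?_
    filter_upwards [hev p.1, hev q.1] with n h1 h2
    exact hmod _ _ _ h1 h2
  have hVc : Continuous V := by
    rw [continuous_iff_continuousAt]
    intro q
    rw [ContinuousAt, Metric.tendsto_nhds]
    intro ε hε
    filter_upwards [md_nhds Λ q hε] with p hp
    rw [Real.dist_eq]
    exact lt_of_le_of_lt (hVmod p q) hp
  -- locally uniform convergence
  have hunif : ∀ R > 0, TendstoUniformlyOn (fun n (p : ℝ × E N) => w (σ n) p.1 p.2)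
      (fun p => V (p.1, p.2)) atTop (Icc (-R) R ×ˢ closedBall 0 R) := by
    intro R _
    rw [Metric.tendstoUniformlyOn_iff]
    intro ε hε
    have hcp : IsCompact (Icc (-R) R ×ˢ closedBall (0 : E N) R) :=
      isCompact_Icc.prod (isCompact_closedBall 0 R)
    obtain ⟨F, hF1, hF2⟩ := hcp.elim_nhds_subcover (fun q => {p | md Λ p q < ε / 4})
      (fun q _ => md_nhds Λ q (by positivity))
    have h1 : ∀ᶠ n in atTop, ∀ q ∈ F, |W (σ n) q - V q| < ε / 4 := by
      rw [eventually_all_finset]
      intro q _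
      have := Metric.tendsto_nhds.1 (hV q) (ε / 4) (by positivity)
      simpa only [Real.dist_eq] using this
    filter_upwards [h1, hev (-R)] with n h1 h2
    intro p hp
    obtain ⟨q, hq⟩ := mem_iUnion.1 (hF2 hp)
    obtain ⟨hqF, hq⟩ := mem_iUnion.1 hq
    rw [mem_setOf_eq] at hq
    have hq1 := (hF1 q hqF).1.1
    have hp1 := hp.1.1
    have k1 := h1 q hqF
    have k2 := hmod (σ n) p q (by linarith) (by linarith)
    have k3 := hVmod p q
    rw [hWeq (σ n) p (by linarith)] at k2
    rw [Real.dist_eq, Prod.mk.eta]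
    rw [abs_lt] at *
    rw [abs_le] at *
    constructor <;> linarith [k1.1, k1.2, k2.1, k2.2, k3.1, k3.2]
  refine ⟨σ, fun t x => V (t, x), hσ, ⟨fun b => ?_, fun t x => hV01 (t, x)⟩, hunif⟩
  have hwV : ∀ t x, Tendsto (fun n => w (σ n) t x) atTop (𝓝 (V (t, x))) := by
    intro t x
    refine (hV (t, x)).congr' ?_
    filter_upwards [hev t] with n hn
    exact hWeq (σ n) (t, x) (by show a (σ n) ≤ t; linarith)
  have hfc : Continuous f := by
    refine (LipschitzWith.of_dist_le_mul (K := ⟨K, hL.K0.le⟩) fun x y => ?_).continuous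
    rw [Real.dist_eq, Real.dist_eq]
    exact hL.lip x y
  have hfb : ∀ s ∈ Icc (0 : ℝ) 1, |f s| ≤ K := by
    intro s hs
    have h1 := hL.lip s 0
    rw [hL.f0, sub_zero, sub_zero, abs_of_nonneg hs.1] at h1
    exact h1.trans (by nlinarith [hs.2, hL.K0])
  refine ⟨⟨1, fun t _ x => ?_⟩, ?_, ?_, ?_⟩
  · rw [abs_of_nonneg (hV01 (t, x)).1]
    exact (hV01 (t, x)).2
  · exact (hVc.comp (Continuous.prodMk continuous_const continuous_id)).measurable
  · exact hVc.continuousOn
  · intro s t _ hst x
    have hsl : ∀ n, ∀ r, a (σ n) < r → Continuous (w (σ n) r) := by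
      intro n r hr
      have h1 := (hM (σ n)).cont
      rw [← continuousOn_univ]
      refine h1.comp (f := fun y : E N => (r, y)) (by fun_prop) ?_
      intro y _
      exact ⟨hr, mem_univ _⟩
    have e1 : Tendsto (fun n => P (t - s) (w (σ n) s) x) atTop
        (𝓝 (P (t - s) (fun y => V (s, y)) x)) := by
      refine tendsto_P (C := 1) (sub_pos.2 hst) ?_ ?_ (fun y => hwV s y) x
      · filter_upwards [hev s] with n hn
        exact (hsl n s (by linarith)).aestronglyMeasurable
      · filter_upwards [hev s] with n hn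
        intro y
        have := hR (σ n) s (by linarith) y
        rw [abs_of_nonneg this.1]
        exact this.2
    have e2 : Tendsto (fun n => ∫ r in s..t, P (t - r) (fun y => f (w (σ n) r y)) x) atTop
        (𝓝 (∫ r in s..t, P (t - r) (fun y => f (V (r, y))) x)) := by
      have hbd : ∀ᶠ n in atTop, ∀ r ∈ Ioo s t, ∀ y, |f (w (σ n) r y)| ≤ K := by
        filter_upwards [hev s] with n hn
        intro r hr y
        exact hfb _ (hR (σ n) r (by linarith [hr.1]) y)
      have hne : ∀ᵐ r : ℝ, r ≠ t := by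
        simp [ae_iff]
      refine intervalIntegral.tendsto_integral_filter_of_dominated_convergence (fun _ => K) ?_ ?_ ?_ ?_
      · filter_upwards [hev s] with n hn
        rw [uIoc_of_le hst.le]
        have hG : AEStronglyMeasurable (fun p : ℝ × E N => hk (t - p.1) (x - p.2) * f (w (σ n) p.1 p.2))
            ((volume.restrict (Ioc s t)).prod volume) := by
          refine AEStronglyMeasurable.mul ?_ ?_
          · have h1 : Measurable (fun p : ℝ × E N => hk (t - p.1) (x - p.2)) :=
              Pool.Agent.H29.TF.measurable_hk_uncurry.comp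
                (Measurable.prodMk (measurable_const.sub measurable_fst)
                  (measurable_const.sub measurable_snd))
            exact h1.aestronglyMeasurable
          · have h2 : (volume.restrict (Ioc s t)).prod (volume : Measure (E N)) =
                ((volume : Measure ℝ).prod (volume : Measure (E N))).restrict (Ioc s t ×ˢ univ) := by
              rw [← Measure.prod_restrict, Measure.restrict_univ]
            rw [h2]
            refine ContinuousOn.aestronglyMeasurable ?_ (measurableSet_Ioc.prod MeasurableSet.univ)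
            refine hfc.comp_continuousOn ((hM (σ n)).cont.mono ?_)
            intro p hp
            exact ⟨by have := hp.1.1; show a (σ n) < p.1; linarith, mem_univ _⟩
        exact hG.integral_prod_right'
      · filter_upwards [hbd] with n hn
        filter_upwards [hne] with r hr hr2
        rw [uIoc_of_le hst.le] at hr2
        have hr3 : r < t := lt_of_le_of_ne hr2.2 hr
        rw [Real.norm_eq_abs]
        exact Pool.Agent.H29.TF.abs_P_le (sub_pos.2 hr3) (hn r ⟨hr2.1, hr3⟩) x
      · exact intervalIntegrable_const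
      · filter_upwards [hne] with r hr hr2
        rw [uIoc_of_le hst.le] at hr2
        have hr3 : r < t := lt_of_le_of_ne hr2.2 hr
        refine tendsto_P (C := K) (sub_pos.2 hr3) ?_ ?_ (fun y => (hfc.tendsto _).comp (hwV r y)) x
        · filter_upwards [hev s] with n hn
          exact (hfc.comp (hsl n r (by linarith [hr2.1]))).aestronglyMeasurable
        · filter_upwards [hbd] with n hn
          exact hn r ⟨hr2.1, hr3⟩
    refine tendsto_nhds_unique (hwV t x) ((e1.add e2).congr' ?_)
    filter_upwards [hev s] with n hn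
    exact ((hM (σ n)).duh s t (by linarith) hst x).symm

end Pool.Agent.H66.RD
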