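import Pool.Agent.H66.RD.DZE

set_option autoImplicit false

namespace Pool.Agent.H66.RD

open Pool.Agent.H82.RD

/-- Powers of `g = 1 mod q`. -/
theorem pow_sub_one_dvd {q : ℕ} [Fact q.Prime] {g m z : ℕ} (hg : 1 ≤ g) (hq : q ∣ g - 1)
    (hz : q ^ m ∣ z) : (q : ℤ_[q]) ^ m ∣ (g : ℤ_[q]) ^ z - 1 := by
  have h0 : (q : ℤ_[q]) ∣ (g : ℤ_[q]) - 1 := by
    obtain ⟨c, hc⟩ := hq
    refine ⟨(c : ℤ_[q]), ?_⟩
    have : g = 1 + q * c := by omega
    rw [this]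
    push_cast
    ring
  have h1 := dvd_sub_pow_of_dvd_sub (R := ℤ_[q]) h0 m
  rw [one_pow] at h1
  obtain ⟨t, rfl⟩ := hz
  have h2 : (g : ℤ_[q]) ^ (q ^ m) - 1 ∣ ((g : ℤ_[q]) ^ (q ^ m)) ^ t - 1 := by
    have := sub_dvd_pow_sub_pow ((g : ℤ_[q]) ^ (q ^ m)) 1 t
    rwa [one_pow] at this
  rw [pow_mul]
  exact dvd_trans (dvd_trans (pow_dvd_pow _ (Nat.le_succ m)) h1) h2

theorem pf_DCL (hDC1 : T_DC1) (hDC2 : T_DC2) (hDZE : T_DZE) : T_DCL := by
  intro q _ v A B κ e T N g ζ E₀ y EE z hA hB hg hqg he hT hN hEE hz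
  have hT1 : T ≤ A * B := le_trans (by nlinarith) hT
  rcases hDZE q v κ e ζ with h | ⟨i₁, ν, ξ, η, h⟩
  · -- first case
    have he2 : A * B + κ ≤ e / 2 := by omega
    have hTE : T ≤ e / 2 - κ := by omega
    apply hDC1 ℤ_[q] (q : ℤ_[q]) (v + 1) A B (e / 2 - κ) N y EE E₀ hB
    · have h1 : B * (A + (v + 1)).choose (v + 1) * T ≤
          B * (A + (v + 1)).choose (v + 1) * (e / 2 - κ) := Nat.mul_le_mul_left _ hTE
      omega
    · intro r
      have h1 : (q : ℤ_[q]) ^ (e / 2) ∣ (q : ℤ_[q]) ^ κ * (z r : ℤ_[q]) := by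
        have h2 : (q : ℤ_[q]) ^ (e / 2) ∣ ∑ j, ζ j * y r j :=
          Finset.dvd_sum (fun j _ => dvd_mul_of_dvd_left (h j) _)
        have h3 := dvd_add (dvd_trans (pow_dvd_pow (q : ℤ_[q]) (Nat.div_le_self e 2)) (hz r)) h2
        rwa [sub_add_cancel] at h3
      have h4 := pow_sub_one_dvd hg hqg (pow_dvd_nat (pow_dvd_of_pow_dvd_mul h1))
      have h5 : (q : ℤ_[q]) ^ (e / 2 - κ) ∣ EE r - E₀ * (g : ℤ_[q]) ^ z r :=
        dvd_trans (pow_dvd_pow _ (by omega)) (hEE r)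
      have h6 : EE r - E₀ = (EE r - E₀ * (g : ℤ_[q]) ^ z r) + E₀ * ((g : ℤ_[q]) ^ z r - 1) := by
        ring
      rw [h6]
      exact dvd_add h5 (dvd_mul_of_dvd_right h4 _)
  · -- second case
    choose z' hz' hy using fun r => h (y r) (z r) (hz r)
    apply hDC2 ℤ_[q] (q : ℤ_[q]) v A B (e / 2) T N y EE z' E₀
      (fun b => (g : ℤ_[q]) ^ (b * q ^ ν) - 1) i₁ ξ η hA (by omega) hT (by omega) hN
    · intro b
      have h0 : (q : ℤ_[q]) ∣ (g : ℤ_[q]) - 1 := by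
        obtain ⟨c, hc⟩ := hqg
        refine ⟨(c : ℤ_[q]), ?_⟩
        have : g = 1 + q * c := by omega
        rw [this]
        push_cast
        ring
      have h2 := sub_dvd_pow_sub_pow (g : ℤ_[q]) 1 (b * q ^ ν)
      rw [one_pow] at h2
      exact dvd_trans h0 h2
    · intro r b
      have h1 : (1 + ((g : ℤ_[q]) ^ (b * q ^ ν) - 1)) ^ z' r = ((g : ℤ_[q]) ^ z r) ^ b := by
        rw [add_sub_cancel, ← pow_mul, ← pow_mul, hz' r]
        congr 1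
        ring
      rw [h1, ← mul_pow]
      exact dvd_trans (dvd_trans (pow_dvd_pow _ (Nat.div_le_self e 2)) (hEE r))
        (sub_dvd_pow_sub_pow _ _ b)
    · exact hy

end Pool.Agent.H66.RD
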