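import Pool.Agent.H82.RD.Targets
import Pool.Agent.H82.RD.Basic

set_option autoImplicit false

namespace Pool.Agent.H66.RD

open Pool.Agent.H82.RD

theorem norm_le_iff_pow_dvd {q : ℕ} [Fact q.Prime] (x : ℤ_[q]) (n : ℕ) :
    ‖x‖ ≤ (q : ℝ) ^ (-n : ℤ) ↔ (q : ℤ_[q]) ^ n ∣ x := by
  rw [PadicInt.norm_le_pow_iff_mem_span_pow, Ideal.mem_span_singleton]

theorem pow_dvd_nat {q : ℕ} [Fact q.Prime] {n z : ℕ} (h : (q : ℤ_[q]) ^ n ∣ (z : ℤ_[q])) :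
    q ^ n ∣ z := by
  have h1 : (q : ℤ_[q]) ^ n ∣ ((z : ℤ) : ℤ_[q]) := by
    rw [Int.cast_natCast]
    exact h
  rw [PadicInt.pow_p_dvd_int_iff] at h1
  exact_mod_cast h1

theorem q_ne_zero {q : ℕ} [Fact q.Prime] : (q : ℤ_[q]) ≠ 0 := by
  have := (Fact.out : q.Prime).ne_zero
  exact_mod_cast this

theorem pow_dvd_of_pow_dvd_mul {q : ℕ} [Fact q.Prime] {a b : ℕ} {x : ℤ_[q]}
    (h : (q : ℤ_[q]) ^ a ∣ (q : ℤ_[q]) ^ b * x) : (q : ℤ_[q]) ^ (a - b) ∣ x := by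
  rcases le_total a b with hab | hab
  · rw [Nat.sub_eq_zero_of_le hab, pow_zero]
    exact one_dvd x
  · obtain ⟨c, rfl⟩ := Nat.exists_eq_add_of_le hab
    rw [pow_add] at h
    rw [Nat.add_sub_cancel_left]
    exact (mul_dvd_mul_iff_left (pow_ne_zero b q_ne_zero)).1 h

theorem pf_DZE : T_DZE := by
  intro q _ v κ e ζ
  by_cases h : ∀ j, (q : ℤ_[q]) ^ (e / 2) ∣ ζ j
  · exact Or.inl h
  right
  push Not at h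
  obtain ⟨j₀, hj₀⟩ := h
  obtain ⟨i₁, hi₁⟩ := Finite.exists_max (fun j => ‖ζ j‖)
  have hne : ζ i₁ ≠ 0 := by
    intro h0
    have h1 := hi₁ j₀
    simp only [h0, norm_zero] at h1
    have h2 : ζ j₀ = 0 := norm_le_zero_iff.1 h1
    exact hj₀ (h2 ▸ dvd_zero _)
  obtain ⟨μ, hμ⟩ : ∃ μ, μ = (ζ i₁).valuation := ⟨_, rfl⟩
  have hspec := PadicInt.unitCoeff_spec hne
  rw [← hμ] at hspec
  obtain ⟨ε, hε⟩ : ∃ ε : ℤ_[q]ˣ, ζ i₁ = (ε : ℤ_[q]) * (q : ℤ_[q]) ^ μ := ⟨_, hspec⟩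
  have hnorm : ‖ζ i₁‖ = (q : ℝ) ^ (-μ : ℤ) := by
    rw [PadicInt.norm_eq_zpow_neg_valuation hne, ← hμ]
  -- all `ζ j` are divisible by `q ^ μ`
  have hdiv : ∀ j, (q : ℤ_[q]) ^ μ ∣ ζ j := by
    intro j
    rw [← norm_le_iff_pow_dvd, ← hnorm]
    exact hi₁ j
  have hμe : μ < e / 2 := by
    by_contra hcon
    push Not at hcon
    exact hj₀ (dvd_trans (pow_dvd_pow _ hcon) (hdiv j₀))
  choose ρ hρ using hdiv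
  obtain ⟨ν, hν⟩ : ∃ ν, ν = μ - κ := ⟨_, rfl⟩
  obtain ⟨τ, hτ⟩ : ∃ τ, κ + ν = μ + τ := ⟨κ + ν - μ, by omega⟩
  refine ⟨i₁, ν, ((ε⁻¹ : ℤ_[q]ˣ) : ℤ_[q]) * (q : ℤ_[q]) ^ τ,
    fun j => -(((ε⁻¹ : ℤ_[q]ˣ) : ℤ_[q]) * ρ (i₁.succAbove j)), ?_⟩
  intro y z hyz
  have hqe : (q : ℤ_[q]) ^ μ ∣ (q : ℤ_[q]) ^ e := pow_dvd_pow _ (by omega)
  have hqs : (q : ℤ_[q]) ^ μ ∣ ∑ j, ζ j * y j :=
    Finset.dvd_sum (fun j _ => dvd_mul_of_dvd_left (Dvd.intro _ (hρ j).symm) _)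
  have hqz : (q : ℤ_[q]) ^ μ ∣ (q : ℤ_[q]) ^ κ * (z : ℤ_[q]) := by
    have h1 := dvd_add (dvd_trans hqe hyz) hqs
    rwa [sub_add_cancel] at h1
  have hz1 : (q : ℤ_[q]) ^ ν ∣ (z : ℤ_[q]) := by
    rw [hν]
    exact pow_dvd_of_pow_dvd_mul hqz
  obtain ⟨z', hz'⟩ := pow_dvd_nat hz1
  refine ⟨z', hz', ?_⟩
  obtain ⟨D, hD⟩ := hyz
  have hkey : (ε : ℤ_[q]) * y i₁ = (q : ℤ_[q]) ^ τ * (z' : ℤ_[q]) -
      ∑ j, ρ (i₁.succAbove j) * y (i₁.succAbove j) - (q : ℤ_[q]) ^ (e - μ) * D := by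
    apply mul_left_cancel₀ (pow_ne_zero μ (q_ne_zero (q := q)))
    have h1 : (q : ℤ_[q]) ^ e = (q : ℤ_[q]) ^ μ * (q : ℤ_[q]) ^ (e - μ) := by
      rw [← pow_add]
      congr 1
      omega
    have h2 : (q : ℤ_[q]) ^ κ * (z : ℤ_[q]) =
        (q : ℤ_[q]) ^ μ * ((q : ℤ_[q]) ^ τ * (z' : ℤ_[q])) := by
      rw [hz']
      push_cast
      rw [← mul_assoc, ← mul_assoc, ← pow_add, ← pow_add, hτ]
    have h3 : ∑ j, ζ j * y j = ζ i₁ * y i₁ +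
        (q : ℤ_[q]) ^ μ * ∑ j, ρ (i₁.succAbove j) * y (i₁.succAbove j) := by
      rw [Fin.sum_univ_succAbove _ i₁, Finset.mul_sum]
      congr 1
      apply Finset.sum_congr rfl
      intro j _
      rw [← mul_assoc, ← hρ]
    rw [h2, h3, h1, hε] at hD
    linear_combination (-1 : ℤ_[q]) * hD
  have hy : y i₁ = ((ε⁻¹ : ℤ_[q]ˣ) : ℤ_[q]) * ((q : ℤ_[q]) ^ τ * (z' : ℤ_[q]) -
      ∑ j, ρ (i₁.succAbove j) * y (i₁.succAbove j) - (q : ℤ_[q]) ^ (e - μ) * D) := by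
    rw [← hkey, ← mul_assoc, Units.inv_mul, one_mul]
  have hfin : y i₁ - (((ε⁻¹ : ℤ_[q]ˣ) : ℤ_[q]) * (q : ℤ_[q]) ^ τ * (z' : ℤ_[q]) +
      ∑ j, -(((ε⁻¹ : ℤ_[q]ˣ) : ℤ_[q]) * ρ (i₁.succAbove j)) * y (i₁.succAbove j)) =
      (q : ℤ_[q]) ^ (e - μ) * (-(((ε⁻¹ : ℤ_[q]ˣ) : ℤ_[q]) * D)) := by
    have h4 : ∑ j, -(((ε⁻¹ : ℤ_[q]ˣ) : ℤ_[q]) * ρ (i₁.succAbove j)) * y (i₁.succAbove j) =
        -(((ε⁻¹ : ℤ_[q]ˣ) : ℤ_[q]) * ∑ j, ρ (i₁.succAbove j) * y (i₁.succAbove j)) := by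
      rw [Finset.mul_sum, ← Finset.sum_neg_distrib]
      apply Finset.sum_congr rfl
      intro j _
      ring
    rw [h4]
    rw [hy]
    ring
  rw [hfin]
  exact dvd_mul_of_dvd_left (pow_dvd_pow _ (by omega)) _

end Pool.Agent.H66.RD
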