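import Pool.Agent.H91.RD.Targets

/-!
# (ST) constant or strictly decreasing
-/

set_option autoImplicit false

open MeasureTheory Set Filter Topology Metric
open Pool.Agent.H29.TF (hk P)

namespace Pool.Agent.H66.RD

open Pool.Agent.H91.RD

/-- translates of entire solutions -/
theorem ent_shift (hTR : T_TR) {N : ℕ} {f : ℝ → ℝ} {w : ℝ → E N → ℝ} (hw : Ent f w)
    (t0 : ℝ) (x0 : E N) : Ent f (fun t x => w (t0 + t) (x0 + x)) := by
  refine ⟨fun a => ?_, fun t x => hw.2 _ _⟩
  have h := hTR N f (a + t0) t0 x0 w (hw.1 _)
  simpa using h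

theorem ent_shift' (hTR : T_TR) {N : ℕ} {f : ℝ → ℝ} {w : ℝ → E N → ℝ} (hw : Ent f w)
    (h : E N) : Ent f (fun t x => w t (x + h)) := by
  have h1 := ent_shift hTR hw 0 h
  have e : (fun t x => w (0 + t) (h + x)) = (fun (t : ℝ) (x : E N) => w t (x + h)) := by
    funext t x
    rw [zero_add, add_comm]
  rwa [e] at h1

theorem st (hTR : T_TR) (hSMP : T_SMP) : T_ST := by
  intro N f K w e hL hw he hm
  have hee : inner ℝ e e = (1 : ℝ) := by rw [real_inner_self_eq_norm_sq, he]; norm_num
  have hort : ∀ t x y, inner ℝ y e = (0 : ℝ) → w t x = w t (x + y) := by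
    intro t x y hy
    refine le_antisymm (hm t x y hy.le) ?_
    have h1 := hm t (x + y) (-y) (by rw [inner_neg_left, hy]; simp)
    rwa [add_neg_cancel_right] at h1
  have hanti : Antitone (fun z : ℝ => w 0 (z • e)) := by
    intro z1 z2 h
    have h1 := hm 0 (z2 • e) ((z1 - z2) • e) (by rw [inner_smul_left, hee]; simp; exact h)
    rw [← add_smul, add_sub_cancel] at h1
    exact h1
  refine ⟨fun t x => ?_, ?_⟩
  · have h1 := hort t x ((inner ℝ x e : ℝ) • e - x) (by
      rw [inner_sub_left, inner_smul_left, hee]
      simp)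
    rw [add_sub_cancel] at h1
    exact h1
  · by_cases hs : StrictAnti (fun z : ℝ => w 0 (z • e))
    · exact Or.inr hs
    · left
      unfold StrictAnti at hs
      push Not at hs
      obtain ⟨a, b, hab, hle⟩ := hs
      set h : ℝ := b - a with hh
      have h0 : 0 < h := by rw [hh]; linarith
      have heq : w 0 (a • e) = w 0 (b • e) := le_antisymm hle (hanti hab.le)
      have hsh := ent_shift' hTR hw (h • e)
      have hle2 : ∀ t x, w t (x + h • e) ≤ w t x := by
        intro t x
        have h1 := hm t (x + h • e) (-(h • e)) (by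
          rw [inner_neg_left, inner_smul_left, hee]
          simp
          exact h0.le)
        rwa [add_neg_cancel_right] at h1
      have h3 := hSMP N f K (fun t x => w t (x + h • e)) w hL hsh hw hle2 0 (a • e) (by
        beta_reduce
        rw [← add_smul, hh, add_sub_cancel]
        exact heq.symm) 0 le_rfl
      have hper : ∀ z : ℝ, w 0 ((z + h) • e) = w 0 (z • e) := by
        intro z
        have := h3 (z • e)
        beta_reduce at this
        rwa [← add_smul] at this
      have hpern : ∀ (n : ℕ) (z : ℝ), w 0 ((z + n * h) • e) = w 0 (z • e) := by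
        intro n
        induction n with
        | zero => intro z; simp
        | succ n ih =>
          intro z
          rw [← ih z, ← hper (z + n * h)]
          congr 2
          push_cast
          ring
      have hle3 : ∀ z1 z2 : ℝ, z1 ≤ z2 → w 0 (z1 • e) = w 0 (z2 • e) := by
        intro z1 z2 hz
        refine le_antisymm ?_ (hanti hz)
        obtain ⟨n, hn⟩ := exists_nat_gt ((z2 - z1) / h)
        rw [← hpern n z1]
        refine hanti ?_
        rw [div_lt_iff₀ h0] at hn
        linarith
      refine ⟨w 0 ((0 : ℝ) • e), fun z => ?_⟩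
      rcases le_total z 0 with hz | hz
      · exact hle3 z 0 hz
      · exact (hle3 0 z hz).symm

end Pool.Agent.H66.RD
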