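import Pool.Agent.H91.RD.Targets
import Pool.Agent.H66.RD.ST

/-!
# (L) the sliding method
-/

set_option autoImplicit false

open MeasureTheory Set Filter Topology Metric
open Pool.Agent.H29.TF (hk P)

namespace Pool.Agent.H66.RD

open Pool.Agent.H91.RD

/-- pointwise convergence from locally uniform convergence -/
theorem pw {N : ℕ} {F : ℕ → ℝ → E N → ℝ} {v : ℝ → E N → ℝ}
    (h : ∀ R > 0, TendstoUniformlyOn (fun n (p : ℝ × E N) => F n p.1 p.2) (fun p => v p.1 p.2)
      atTop (Icc (-R) R ×ˢ closedBall 0 R)) (t : ℝ) (x : E N) :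
    Tendsto (fun n => F n t x) atTop (𝓝 (v t x)) := by
  have hR : (0 : ℝ) < |t| + ‖x‖ + 1 := by positivity
  have h1 := (h _ hR).tendsto_at (x := (t, x)) (by
    constructor
    · refine abs_le.1 ?_
      have := norm_nonneg x
      linarith
    · rw [mem_closedBall_zero_iff]
      have := abs_nonneg t
      linarith)
  exact h1

theorem step (hLA : T_LA) {N : ℕ} {f φ : ℝ → ℝ} {c lam K k μ η0 θ : ℝ} {w : ℝ → E N → ℝ} {e : E N}
    (H : Hyp f c lam φ K k μ η0 θ) (hw : Ent f w) (he : ‖e‖ = 1) (hT : TailW e c w) (h : E N)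
    (hs : ∀ t x, w t (x + h) < w t x → w t x ≤ η0 ∨ 1 - η0 ≤ w t (x + h)) :
    ∀ t x, w t x ≤ w t (x + h) := by
  refine hLA N f K k c w e h H.toLip H.k0 H.front.cpos H.kc hw he hT ?_
  intro t x hlt
  rcases hs t x hlt with h1 | h1
  · exact H.near0 _ _ (hw.2 t (x + h)).1 hlt.le h1
  · refine (H.near1 _ _ h1 hlt.le (hw.2 t x).2).trans ?_
    have h2 := mul_pos H.mu0 (sub_pos.2 hlt)
    have h3 := mul_nonneg H.k0 (sub_nonneg.2 hlt.le)
    linarith

theorem slide (hLA : T_LA) (hREG : T_REG) (hCPT : T_CPT) (hSMP : T_SMP) (hTR : T_TR)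
    {N : ℕ} {f φ : ℝ → ℝ} {c lam K k μ η0 θ : ℝ} {w : ℝ → E N → ℝ} {e : E N}
    (H : Hyp f c lam φ K k μ η0 θ) (hw : Ent f w) (he : ‖e‖ = 1) (hF : Flat e (η0 / 4) w)
    (hT : TailW e c w) (y0 : E N) (hy : inner ℝ y0 e < (0 : ℝ)) (t : ℝ) (x : E N) :
    w t x ≤ w t (x + y0) := by
  obtain ⟨Λ, hΛ1, hΛ⟩ := hREG N K H.toLip.K0
  have hlip : ∀ t x y, |w t x - w t y| ≤ Λ * ‖x - y‖ := by
    intro t x y
    exact (hΛ f (t - 1) w H.toLip (hw.1 _) (fun s _ z => hw.2 s z)).1 t (by linarith) x y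
  have heta := H.eta0
  have hy0 : y0 ≠ 0 := by
    intro h
    rw [h, inner_zero_left] at hy
    exact lt_irrefl _ hy
  have hn : 0 < ‖y0‖ := norm_pos_iff.2 hy0
  set a : ℝ := -(inner ℝ y0 e) with ha
  have ha0 : 0 < a := by rw [ha]; linarith
  obtain ⟨C, hC, hFC⟩ := hF (a / (2 * ‖y0‖)) (by positivity)
  -- translation by a large multiple
  have hbig : ∀ ρ : ℝ, 2 * C / a ≤ ρ → 0 ≤ ρ →
      inner ℝ (ρ • y0) e ≤ -(a / (2 * ‖y0‖) * ‖ρ • y0‖ + C) := by
    intro ρ hρ hρ0
    rw [inner_smul_left, norm_smul, Real.norm_of_nonneg hρ0]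
    have h1 : a / (2 * ‖y0‖) * (ρ * ‖y0‖) = a * ρ / 2 := by field_simp
    rw [h1, div_le_iff₀ ha0] at *
    simp only [conj_trivial]
    have h2 : inner ℝ y0 e = -a := by rw [ha]; ring
    rw [h2]
    linarith
  have hA : ∀ ρ : ℝ, 2 * C / a ≤ ρ → 0 ≤ ρ → ∀ t x, w t x ≤ w t (x + ρ • y0) := by
    intro ρ hρ hρ0
    refine step hLA H hw he hT (ρ • y0) fun t x _ => ?_
    rcases le_or_gt (w t x) (η0 / 4) with h1 | h1
    · left
      linarith
    · right
      have := hFC t x (ρ • y0) h1 (hbig ρ hρ hρ0)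
      linarith
  set S : Set ℝ := {ρ | 0 ≤ ρ ∧ ∀ ρ' ≥ ρ, ∀ t x, w t x ≤ w t (x + ρ' • y0)} with hS
  have hSne : S.Nonempty := by
    refine ⟨2 * C / a, by positivity, fun ρ' hρ' => hA ρ' hρ' ?_⟩
    have : 0 ≤ 2 * C / a := by positivity
    linarith
  have hSb : BddBelow S := ⟨0, fun ρ hρ => hρ.1⟩
  set ρs : ℝ := sInf S with hρs
  have hρs0 : 0 ≤ ρs := le_csInf hSne fun ρ hρ => hρ.1
  have hgt : ∀ ρ, ρs < ρ → ∀ t x, w t x ≤ w t (x + ρ • y0) := by
    intro ρ hρ
    obtain ⟨ρ1, h1, h2⟩ := exists_lt_of_csInf_lt hSne hρ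
    exact h1.2 ρ h2.le
  have hstar : ∀ t x, w t x ≤ w t (x + ρs • y0) := by
    intro t x
    refine le_of_forall_pos_le_add fun δ hδ => ?_
    have h1 := hgt (ρs + δ / (Λ * ‖y0‖)) (by
      have : 0 < δ / (Λ * ‖y0‖) := by positivity
      linarith) t x
    have h2 := hlip t (x + (ρs + δ / (Λ * ‖y0‖)) • y0) (x + ρs • y0)
    have h3 : x + (ρs + δ / (Λ * ‖y0‖)) • y0 - (x + ρs • y0) = (δ / (Λ * ‖y0‖)) • y0 := by
      rw [add_smul]
      abel
    rw [h3, norm_smul, Real.norm_of_nonneg (by positivity)] at h2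
    have h4 : Λ * (δ / (Λ * ‖y0‖) * ‖y0‖) = δ := by
      have : Λ ≠ 0 := by positivity
      field_simp
    rw [h4] at h2
    have := (abs_le.1 h2).2
    linarith
  have hzero : ρs = 0 := by
    by_contra hne
    have hpos : 0 < ρs := lt_of_le_of_ne hρs0 (Ne.symm hne)
    by_cases hcase : ∃ α > 0, ∀ t x, η0 / 2 ≤ w t x → w t x ≤ 1 - η0 / 2 →
        2 * α ≤ w t (x + ρs • y0) - w t x
    · obtain ⟨α, hα, hM⟩ := hcase
      set δ : ℝ := min ρs (min α (η0 / 2) / (Λ * ‖y0‖)) with hδ
      have hδ0 : 0 < δ := by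
        refine lt_min hpos ?_
        have : 0 < min α (η0 / 2) := lt_min hα (by linarith)
        positivity
      have hmem : ρs - δ ∈ S := by
        refine ⟨by have := min_le_left ρs (min α (η0 / 2) / (Λ * ‖y0‖)); linarith, ?_⟩
        intro ρ hρ
        rcases lt_or_ge ρs ρ with h1 | h1
        · exact hgt ρ h1
        · have hclose : ∀ t x, w t (x + ρs • y0) - min α (η0 / 2) ≤ w t (x + ρ • y0) := by
            intro t x
            have h2 := hlip t (x + ρ • y0) (x + ρs • y0)
            have h3 : x + ρ • y0 - (x + ρs • y0) = (-(ρs - ρ)) • y0 := by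
              rw [neg_sub, sub_smul]
              abel
            rw [h3, norm_smul, norm_neg, Real.norm_of_nonneg (by linarith)] at h2
            have h4 : ρs - ρ ≤ min α (η0 / 2) / (Λ * ‖y0‖) := by
              have := min_le_right ρs (min α (η0 / 2) / (Λ * ‖y0‖))
              linarith
            rw [le_div_iff₀ (by positivity)] at h4
            have h5 : Λ * ((ρs - ρ) * ‖y0‖) = (ρs - ρ) * (Λ * ‖y0‖) := by ring
            rw [h5] at h2
            have := (abs_le.1 h2).1
            linarith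
          refine step hLA H hw he hT (ρ • y0) fun t x hlt => ?_
          have h6 := hclose t x
          have m1 := min_le_left α (η0 / 2)
          have m2 := min_le_right α (η0 / 2)
          rcases lt_or_ge (w t x) (η0 / 2) with h7 | h7
          · left
            linarith
          · rcases le_or_gt (w t x) (1 - η0 / 2) with h8 | h8
            · have := hM t x h7 h8
              linarith
            · right
              have := hstar t x
              linarith
      have := csInf_le hSb hmem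
      linarith
    · push Not at hcase
      have hseq : ∀ n : ℕ, ∃ s z, η0 / 2 ≤ w s z ∧ w s z ≤ 1 - η0 / 2 ∧
          w s (z + ρs • y0) - w s z < 2 * (1 / ((n : ℝ) + 1)) := fun n =>
        hcase (1 / ((n : ℝ) + 1)) (by positivity)
      choose s z hs1 hs2 hs3 using hseq
      obtain ⟨σ, W, hσ, hW, hconv⟩ := hCPT N f K H.toLip (fun n => -(n : ℝ))
        (fun n t x => w (s n + t) (z n + x))
        (tendsto_neg_atTop_atBot.comp tendsto_natCast_atTop_atTop)
        (fun n => (ent_shift hTR hw (s n) (z n)).1 _)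
        (fun n t _ x => hw.2 _ _)
      have hp : ∀ t x, Tendsto (fun n => w (s (σ n) + t) (z (σ n) + x)) atTop (𝓝 (W t x)) :=
        fun t x => pw (F := fun n t x => w (s (σ n) + t) (z (σ n) + x)) hconv t x
      have hle : ∀ t x, W t x ≤ W t (x + ρs • y0) := by
        intro t x
        refine le_of_tendsto_of_tendsto' (hp t x) (hp t (x + ρs • y0)) fun n => ?_
        have := hstar (s (σ n) + t) (z (σ n) + x)
        rwa [add_assoc] at this
      have hp0 : Tendsto (fun n => w (s (σ n)) (z (σ n))) atTop (𝓝 (W 0 0)) := by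
        have := hp 0 0
        simpa using this
      have hp1 : ∀ y : E N, Tendsto (fun n => w (s (σ n)) (z (σ n) + y)) atTop (𝓝 (W 0 y)) := by
        intro y
        have := hp 0 y
        simpa using this
      have hge : η0 / 2 ≤ W 0 0 := ge_of_tendsto' hp0 fun n => hs1 _
      have hle1 : W 0 0 ≤ 1 - η0 / 2 := le_of_tendsto' hp0 fun n => hs2 _
      have heq0 : W 0 (0 + ρs • y0) ≤ W 0 0 := by
        rw [zero_add]
        have h1 : Tendsto (fun n : ℕ => 2 * (1 / (((σ n : ℕ) : ℝ) + 1))) atTop (𝓝 (2 * 0)) :=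
          ((tendsto_one_div_add_atTop_nhds_zero_nat).comp hσ.tendsto_atTop).const_mul 2
        have h2 := le_of_tendsto_of_tendsto' ((hp1 (ρs • y0)).sub hp0) h1
          (fun n => (hs3 (σ n)).le)
        linarith
      have hshW := ent_shift' hTR hW (ρs • y0)
      have h3 := hSMP N f K W (fun t x => W t (x + ρs • y0)) H.toLip hW hshW hle 0 0
        (le_antisymm (hle 0 0) heq0) 0 le_rfl
      have hper : ∀ m : ℕ, W 0 ((m * ρs) • y0) = W 0 0 := by
        intro m
        induction m with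
        | zero => simp
        | succ m ih =>
          rw [← ih, h3 ((m * ρs) • y0)]
          beta_reduce
          rw [← add_smul]
          congr 2
          push_cast
          ring
      obtain ⟨m, hm⟩ := exists_nat_gt (2 * C / a / ρs)
      rw [div_lt_iff₀ hpos] at hm
      have h4 : 1 - η0 / 4 ≤ W 0 ((m * ρs) • y0) := by
        refine ge_of_tendsto (hp1 _) ?_
        have h5 : ∀ᶠ n in atTop, η0 / 4 < w (s (σ n)) (z (σ n)) :=
          hp0.eventually (lt_mem_nhds (by linarith))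
        filter_upwards [h5] with n hn'
        exact hFC _ _ _ hn' (hbig _ hm.le (by positivity))
      rw [hper m] at h4
      linarith
  have := hgt 1 (by rw [hzero]; exact one_pos) t x
  rwa [one_smul] at this

theorem l (hLA : T_LA) (hREG : T_REG) (hCPT : T_CPT) (hSMP : T_SMP) (hTR : T_TR) : T_L := by
  intro N f φ c lam K k μ η0 θ w e H hw he hF hT t x y hy
  have hee : inner ℝ e e = (1 : ℝ) := by rw [real_inner_self_eq_norm_sq, he]; norm_num
  obtain ⟨Λ, hΛ1, hΛ⟩ := hREG N K H.toLip.K0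
  have hlip : ∀ t x y, |w t x - w t y| ≤ Λ * ‖x - y‖ := by
    intro t x y
    exact (hΛ f (t - 1) w H.toLip (hw.1 _) (fun s _ z => hw.2 s z)).1 t (by linarith) x y
  refine le_of_forall_pos_le_add fun δ hδ => ?_
  have hd : 0 < δ / Λ := by positivity
  have h1 := slide hLA hREG hCPT hSMP hTR H hw he hF hT (y - (δ / Λ) • e) (by
    rw [inner_sub_left, inner_smul_left, hee]
    simp only [conj_trivial, mul_one]
    linarith) t x
  have h2 := hlip t (x + (y - (δ / Λ) • e)) (x + y)
  have h3 : x + (y - (δ / Λ) • e) - (x + y) = (-(δ / Λ)) • e := by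
    rw [neg_smul]
    abel
  rw [h3, norm_smul, norm_neg, he, mul_one, Real.norm_of_nonneg hd.le] at h2
  have h4 : Λ * (δ / Λ) = δ := by
    have : Λ ≠ 0 := by positivity
    field_simp
  rw [h4] at h2
  have := (abs_le.1 h2).2
  linarith

end Pool.Agent.H66.RD
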