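import Pool.Agent.H91.RD.Targets
import Pool.Agent.H66.RD.ST

/-!
# (LA) comparison with exponentially small data
-/

set_option autoImplicit false

open MeasureTheory Set Filter Topology Metric
open Pool.Agent.H29.TF (hk P)

namespace Pool.Agent.H66.RD

open Pool.Agent.H91.RD

theorem la (hCMP : T_CMP) (hTR : T_TR) (hEX : T_EXPI) : T_LA := by
  intro N f K k c w e h hL hk0 hc hkc hw he hT hf t x
  have hsh := ent_shift' hTR hw h
  set κ : ℝ := (c ^ 2 / 4 - k) / 4 with hκ
  have hκ0 : 0 < κ := by rw [hκ]; linarith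
  obtain ⟨ε, C', hε0, hεκ, hC', hE⟩ := hEX N (c / 2) κ (by linarith) hκ0
  obtain ⟨C, hC, T0, hT0, hTail⟩ := hT ε hε0
  -- the bound for each large `T`
  set B : ℝ := C * C' * Real.exp ((k + c ^ 2 / 4 + κ) * t) *
    Real.exp (-(c / 2 * inner ℝ x e) + ε * ‖x‖) with hB
  have hB0 : 0 ≤ B := by rw [hB]; positivity
  have hbd : ∀ T, T0 ≤ T → -t < T → w t x - w t (x + h) ≤ B * Real.exp (-(2 * κ * T)) := by
    intro T hT1 hT2
    have hτ : 0 < t - -T := by linarith
    have h1 := hCMP N f K k (-T) (-T) t w (fun t x => w t (x + h)) hL le_rfl (by linarith)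
      (hw.1 _) (hsh.1 _) (fun r _ y hy => hf r y hy) x
    beta_reduce at h1
    set D : ℝ := C * Real.exp (-((c ^ 2 / 2 - ε) * T)) with hD
    have hD0 : 0 ≤ D := by rw [hD]; positivity
    obtain ⟨hI, hP⟩ := hE e he (t - -T) hτ x
    have h2 : P (t - -T) (fun y => max (w (-T) y - w (-T) (y + h)) 0) x ≤
        D * P (t - -T) (fun y : E N => Real.exp (-(c / 2 * inner ℝ y e) + ε * ‖y‖)) x := by
      unfold P
      rw [← integral_const_mul]
      refine integral_mono_of_nonneg (ae_of_all _ fun y => ?_) (hI.const_mul D)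
        (ae_of_all _ fun y => ?_)
      · exact mul_nonneg (Pool.Agent.H29.TF.hk_nonneg hτ.le _) (le_max_right _ _)
      · beta_reduce
        have h3 : max (w (-T) y - w (-T) (y + h)) 0 ≤
            D * Real.exp (-(c / 2 * inner ℝ y e) + ε * ‖y‖) := by
          refine max_le ?_ (by positivity)
          have h4 := hTail T hT1 y
          have h5 := (hw.2 (-T) (y + h)).1
          have h6 : D * Real.exp (-(c / 2 * inner ℝ y e) + ε * ‖y‖) =
              C * Real.exp (-(c / 2 * (inner ℝ y e + c * T)) + ε * (‖y‖ + T)) := by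
            rw [hD, mul_assoc, ← Real.exp_add]
            congr 2
            ring
          linarith
        calc hk (t - -T) (x - y) * max (w (-T) y - w (-T) (y + h)) 0
            ≤ hk (t - -T) (x - y) * (D * Real.exp (-(c / 2 * inner ℝ y e) + ε * ‖y‖)) :=
              mul_le_mul_of_nonneg_left h3 (Pool.Agent.H29.TF.hk_nonneg hτ.le _)
          _ = _ := by ring
    have h7 : w t x - w t (x + h) ≤ Real.exp (k * (t - -T)) * (D * (C' *
        Real.exp (((c / 2) ^ 2 + κ) * (t - -T)) *
          Real.exp (-(c / 2 * inner ℝ x e) + ε * ‖x‖))) := by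
      refine h1.trans (mul_le_mul_of_nonneg_left ?_ (Real.exp_pos _).le)
      exact h2.trans (mul_le_mul_of_nonneg_left hP hD0)
    refine h7.trans ?_
    have h8 : Real.exp (k * (t - -T)) * (D * (C' *
        Real.exp (((c / 2) ^ 2 + κ) * (t - -T)) *
          Real.exp (-(c / 2 * inner ℝ x e) + ε * ‖x‖))) =
        B * Real.exp (-((c ^ 2 / 4 - k - κ - ε) * T)) := by
      rw [hB, hD]
      have e1 : Real.exp (k * (t - -T)) * (C * Real.exp (-((c ^ 2 / 2 - ε) * T)) * (C' *
        Real.exp (((c / 2) ^ 2 + κ) * (t - -T)) *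
          Real.exp (-(c / 2 * inner ℝ x e) + ε * ‖x‖))) =
          C * C' * (Real.exp (k * (t - -T)) * Real.exp (-((c ^ 2 / 2 - ε) * T)) *
            Real.exp (((c / 2) ^ 2 + κ) * (t - -T))) *
            Real.exp (-(c / 2 * inner ℝ x e) + ε * ‖x‖) := by ring
      have e2 : C * C' * Real.exp ((k + c ^ 2 / 4 + κ) * t) *
          Real.exp (-(c / 2 * inner ℝ x e) + ε * ‖x‖) *
            Real.exp (-((c ^ 2 / 4 - k - κ - ε) * T)) =
          C * C' * (Real.exp ((k + c ^ 2 / 4 + κ) * t) *
            Real.exp (-((c ^ 2 / 4 - k - κ - ε) * T))) *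
            Real.exp (-(c / 2 * inner ℝ x e) + ε * ‖x‖) := by ring
      rw [e1, e2, ← Real.exp_add, ← Real.exp_add, ← Real.exp_add]
      congr 3
      ring
    rw [h8]
    refine mul_le_mul_of_nonneg_left (Real.exp_le_exp.2 ?_) hB0
    have hTpos : 0 < T := hT0.trans_le hT1
    have h9 : 2 * κ ≤ c ^ 2 / 4 - k - κ - ε := by
      have : c ^ 2 / 4 - k = 4 * κ := by rw [hκ]; ring
      linarith
    have := mul_le_mul_of_nonneg_right h9 hTpos.le
    linarith
  have hlim : Tendsto (fun T : ℝ => B * Real.exp (-(2 * κ * T))) atTop (𝓝 0) := by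
    have h1 : Tendsto (fun T : ℝ => -(2 * κ * T)) atTop atBot :=
      tendsto_neg_atTop_atBot.comp (tendsto_id.const_mul_atTop (by positivity))
    have h2 := (Real.tendsto_exp_atBot.comp h1).const_mul B
    simpa using h2
  have h10 : w t x - w t (x + h) ≤ 0 := by
    refine ge_of_tendsto hlim ?_
    filter_upwards [eventually_ge_atTop T0, eventually_gt_atTop (-t)] with T h1 h2
    exact hbd T h1 h2
  linarith

end Pool.Agent.H66.RD
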